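import Pool.Agent.W371.LL.Com

/-! MP_6505eb_co: AMGM. -/

set_option autoImplicit false

open Finset

namespace Pool.Agent.W371.LL

open Pool.Agent.W297.LP

lemma amgm_aux {k : ℕ} [NeZero k] (h : Fin k → ℝ) (hh : ∀ i, 0 ≤ h i) (A : ℝ) (hA : 0 ≤ A)
    (hp : A ^ k ≤ ∏ i, h i) : (k : ℝ) * A ≤ ∑ i, h i := by
  have hk : (k : ℝ) ≠ 0 := by exact_mod_cast NeZero.ne k
  have hk0 : (0 : ℝ) < k := lt_of_le_of_ne (Nat.cast_nonneg _) hk.symm
  have h1 := Real.geom_mean_le_arith_mean_weighted (univ : Finset (Fin k)) (fun _ => 1 / (k : ℝ)) h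
    (fun i _ => by positivity) (by simp [hk]) (fun i _ => hh i)
  rw [Real.finset_prod_rpow _ _ (fun i _ => hh i), ← Finset.mul_sum] at h1
  have h2 : A ≤ (∏ i, h i) ^ (1 / (k : ℝ)) := by
    have h3 : (A ^ k) ^ (1 / (k : ℝ)) = A := by
      rw [one_div]
      exact Real.pow_rpow_inv_natCast hA (NeZero.ne k)
    rw [← h3]
    exact Real.rpow_le_rpow (by positivity) hp (by positivity)
  have h4 : A ≤ 1 / (k : ℝ) * ∑ i, h i := h2.trans h1
  rw [one_div, inv_mul_eq_div, le_div_iff₀ hk0] at h4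
  linarith

theorem amgm : SAMGM := by
  intro k hk V _ W hW T D A hA hD
  haveI : NeZero k := ⟨by omega⟩
  have hk0 : (0 : ℝ) < k := by exact_mod_cast hk
  set h : Fin k → V → ℝ := fun i x => td W (T i) x with hh
  have hnn : ∀ i x, 0 ≤ h i x := fun i x => td_nonneg hW (T i) x
  -- invariance under cyclic shifts
  have hshift : ∀ s : Fin k, ∑ x ∈ cl W D k, ∏ i, h i (x (i + s)) =
      ∑ x ∈ cl W D k, ∏ i, h i (x i) := by
    intro s
    refine Finset.sum_bij' (fun x _ => fun i => x (i + s)) (fun x _ => fun i => x (i - s))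
      ?_ ?_ ?_ ?_ ?_
    · intro x hx
      simp only [cl, mem_filter, mem_univ, true_and] at hx ⊢
      refine ⟨fun i => hx.1 _, fun i j hij => hx.2 _ _ ?_⟩
      intro e; exact hij (add_right_cancel e)
    · intro x hx
      simp only [cl, mem_filter, mem_univ, true_and] at hx ⊢
      refine ⟨fun i => hx.1 _, fun i j hij => hx.2 _ _ ?_⟩
      intro e; exact hij (sub_left_inj.1 e)
    · intro x _
      funext i; simp
    · intro x _
      funext i; simp
    · intro x _
      rfl
  have hmain : (k : ℝ) * (((cl W D k).card : ℝ) * A) ≤ (k : ℝ) * ∑ x ∈ cl W D k, ∏ i, h i (x i) := by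
    have e1 : (k : ℝ) * ∑ x ∈ cl W D k, ∏ i, h i (x i) =
        ∑ x ∈ cl W D k, ∑ s : Fin k, ∏ i, h i (x (i + s)) := by
      rw [Finset.sum_comm]
      simp only [hshift]
      simp
    rw [e1]
    have e2 : (k : ℝ) * (((cl W D k).card : ℝ) * A) = ∑ x ∈ cl W D k, (k : ℝ) * A := by
      rw [Finset.sum_const, nsmul_eq_mul]; ring
    rw [e2]
    refine Finset.sum_le_sum fun x hx => ?_
    refine amgm_aux _ (fun s => Finset.prod_nonneg fun i _ => hnn _ _) A hA ?_
    rw [Finset.prod_comm]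
    have e3 : ∀ i : Fin k, ∏ s : Fin k, h i (x (i + s)) = ∏ j : Fin k, h i (x j) := by
      intro i
      exact Fintype.prod_equiv (Equiv.addLeft i) _ _ (fun s => rfl)
    simp only [e3]
    rw [Finset.prod_comm]
    have e4 : A ^ k = ∏ _j : Fin k, A := by simp
    rw [e4]
    refine Finset.prod_le_prod (fun _ _ => hA) fun j _ => ?_
    simp only [cl, mem_filter, mem_univ, true_and] at hx
    exact hD _ (hx.1 j)
  have h1 : ((cl W D k).card : ℝ) * A ≤ ∑ x ∈ cl W D k, ∏ i, h i (x i) :=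
    le_of_mul_le_mul_left hmain hk0
  have h2 : ∑ x ∈ cl W D k, ∏ i, h i (x i) ≤ ∑ x ∈ cl W univ k, ∏ i, h i (x i) := by
    refine Finset.sum_le_sum_of_subset_of_nonneg ?_ fun x _ _ => Finset.prod_nonneg fun i _ => hnn _ _
    intro x hx
    simp only [cl, mem_filter, mem_univ, true_and, implies_true] at hx ⊢
    exact hx.2
  rcases isEmpty_or_nonempty V with hE | hN
  · have : (cl W D k).card = 0 := by
      rw [Finset.card_eq_zero, Finset.eq_empty_iff_forall_notMem]
      intro x _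
      exact hE.false (x 0)
    rw [this]
    have h3 : Fintype.card V = 0 := Fintype.card_eq_zero
    rw [h3]
    simp [show k ≠ 0 by omega]
  · have hn : (Fintype.card V : ℝ) ≠ 0 := by exact_mod_cast Fintype.card_ne_zero
    unfold lol
    rw [mul_div_cancel₀ _ (pow_ne_zero _ hn)]
    exact h1.trans h2

end Pool.Agent.W371.LL
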