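import Pool.Agent.W371.LL.Com

/-! MP_6505eb_co: CERT. -/

set_option autoImplicit false

open Finset

namespace Pool.Agent.W371.LL

open Pool.Agent.W297.LP

variable {V : Type} [Fintype V]

/-- one step of the walk on measures -/
noncomputable def push (W : V → V → ℝ) (m1 : V → ℝ) (y : V) : ℝ :=
  ∑ x, m1 x * (W x y / ∑ z, W x z)

lemma push_pp (W : V → V → ℝ) (m1 g : V → ℝ) :
    ∑ x, m1 x * pp W g x = ∑ y, push W m1 y * g y := by
  unfold push pp
  simp only [Finset.sum_mul]
  rw [Finset.sum_comm]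
  refine Finset.sum_congr rfl fun x _ => ?_
  rw [Finset.sum_div, Finset.mul_sum]
  refine Finset.sum_congr rfl fun y _ => ?_
  ring

lemma S_nonneg {W : V → V → ℝ} (hW : Ker W) (x : V) : 0 ≤ ∑ z, W x z :=
  Finset.sum_nonneg fun z _ => ker_nonneg hW x z

lemma push_nonneg {W : V → V → ℝ} (hW : Ker W) {m1 : V → ℝ} (h0 : ∀ x, 0 ≤ m1 x) (y : V) :
    0 ≤ push W m1 y :=
  Finset.sum_nonneg fun x _ => mul_nonneg (h0 x) (div_nonneg (ker_nonneg hW x y) (S_nonneg hW x))

lemma push_le {W : V → V → ℝ} (hW : Ker W) {m1 : V → ℝ} (h0 : ∀ x, 0 ≤ m1 x)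
    (h1 : ∀ x, m1 x ≤ dg W x) (y : V) : push W m1 y ≤ dg W y := by
  unfold push dg
  rw [Finset.sum_div]
  refine Finset.sum_le_sum fun x _ => ?_
  have hn : (0 : ℝ) ≤ (Fintype.card V : ℝ) := Nat.cast_nonneg _
  rcases (S_nonneg hW x).eq_or_lt with h | h
  · rw [← h, div_zero, mul_zero]
    exact div_nonneg (ker_nonneg hW y x) hn
  · have h2 := h1 x
    unfold dg at h2
    calc m1 x * (W x y / ∑ z, W x z) ≤ ((∑ z, W x z) / (Fintype.card V : ℝ)) * (W x y / ∑ z, W x z) :=
          mul_le_mul_of_nonneg_right h2 (div_nonneg (ker_nonneg hW x y) h.le)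
      _ = W y x / (Fintype.card V : ℝ) := by
          rw [hW.symm y x]
          field_simp

lemma push_sum {W : V → V → ℝ} (hW : Ker W) {m1 : V → ℝ} (h0 : ∀ x, 0 ≤ m1 x)
    (h1 : ∀ x, m1 x ≤ dg W x) : ∑ y, push W m1 y = ∑ x, m1 x := by
  unfold push
  rw [Finset.sum_comm]
  refine Finset.sum_congr rfl fun x _ => ?_
  rw [← Finset.mul_sum, ← Finset.sum_div]
  rcases (S_nonneg hW x).eq_or_lt with h | h
  · have h2 := h1 x
    unfold dg at h2
    rw [← h, zero_div] at h2
    have : m1 x = 0 := le_antisymm h2 (h0 x)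
    rw [this, zero_mul]
  · rw [div_self h.ne', mul_one]

theorem cert : SCert := by
  refine ⟨?_, ?_⟩
  · intro m l1 l2 Ph hm hc V _ W hW m1 m2 a1 a2 b1 b2 T
    have hW' := co_ker hW
    induction T generalizing m1 m2 with
    | pt => simp [gt, Tr.sz]
    | br A B ihA ihB =>
      have hA := ihA m1 m2 a1 a2 b1 b2
      have hB := ihB (push W m1) (push (co W) m2) (push_nonneg hW a1) (push_le hW a1 a2)
        (push_nonneg hW' b1) (push_le hW' b1 b2)
      rw [push_sum hW a1 a2, push_sum hW' b1 b2] at hB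
      have hbase : l1 * ∑ x, m1 x + l2 * ∑ x, m2 x + ∑ x, Ph (dg W x) ≤
          ∑ x, m1 x * lf W m x + ∑ x, m2 x * lf (co W) m x := by
        rw [Finset.mul_sum, Finset.mul_sum, ← Finset.sum_add_distrib, ← Finset.sum_add_distrib,
          ← Finset.sum_add_distrib]
        refine Finset.sum_le_sum fun x _ => ?_
        have h2 := b2 x
        rw [dg_co] at h2
        have := hc (dg W x) (m1 x) (m2 x) (dg_nonneg hW x) (dg_le_one hW x) (a1 x) (a2 x) (b1 x) h2
        unfold lf
        rw [dg_co]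
        exact this
      have e1 : ∑ x, m1 x * gt W m (.br A B) x = ∑ x, m1 x * gt W m A x +
          ∑ x, m1 x * lf W m x + ∑ y, push W m1 y * gt W m B y := by
        rw [← push_pp, ← Finset.sum_add_distrib, ← Finset.sum_add_distrib]
        refine Finset.sum_congr rfl fun x _ => ?_
        show m1 x * (gt W m A x + lf W m x + pp W (gt W m B) x) = _
        ring
      have e2 : ∑ x, m2 x * gt (co W) m (.br A B) x = ∑ x, m2 x * gt (co W) m A x +
          ∑ x, m2 x * lf (co W) m x + ∑ y, push (co W) m2 y * gt (co W) m B y := by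
        rw [← push_pp, ← Finset.sum_add_distrib, ← Finset.sum_add_distrib]
        refine Finset.sum_congr rfl fun x _ => ?_
        show m2 x * (gt (co W) m A x + lf (co W) m x + pp (co W) (gt (co W) m B) x) = _
        ring
      have hsz : (((Tr.br A B).sz : ℕ) : ℝ) = (A.sz : ℝ) + (B.sz : ℝ) + 1 := by
        show ((A.sz + B.sz + 1 : ℕ) : ℝ) = _
        push_cast; ring
      rw [e1, e2, hsz]
      linarith
  · intro m l Ph hm hc V _ W hW m1 a1 a2 T
    induction T generalizing m1 with
    | pt => simp [gt, Tr.sz]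
    | br A B ihA ihB =>
      have hA := ihA m1 a1 a2
      have hB := ihB (push W m1) (push_nonneg hW a1) (push_le hW a1 a2)
      rw [push_sum hW a1 a2] at hB
      have hbase : l * ∑ x, m1 x + ∑ x, Ph (dg W x) ≤ ∑ x, m1 x * lf W m x := by
        rw [Finset.mul_sum, ← Finset.sum_add_distrib]
        refine Finset.sum_le_sum fun x _ => ?_
        exact hc (dg W x) (m1 x) (dg_nonneg hW x) (dg_le_one hW x) (a1 x) (a2 x)
      have e1 : ∑ x, m1 x * gt W m (.br A B) x = ∑ x, m1 x * gt W m A x +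
          ∑ x, m1 x * lf W m x + ∑ y, push W m1 y * gt W m B y := by
        rw [← push_pp, ← Finset.sum_add_distrib, ← Finset.sum_add_distrib]
        refine Finset.sum_congr rfl fun x _ => ?_
        show m1 x * (gt W m A x + lf W m x + pp W (gt W m B) x) = _
        ring
      have hsz : (((Tr.br A B).sz : ℕ) : ℝ) = (A.sz : ℝ) + (B.sz : ℝ) + 1 := by
        show ((A.sz + B.sz + 1 : ℕ) : ℝ) = _
        push_cast; ring
      rw [e1, hsz]
      linarith

end Pool.Agent.W371.LL
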