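import Pool.Agent.W297.LP.Stm

/-! MP_6505eb_co: NUM. -/

set_option autoImplicit false

open Finset

namespace Pool.Agent.W371.LL

open Pool.Agent.W297.LP

lemma tang {d m y : ℝ} (hd : 0 ≤ d) (hm : 0 < m) (hy : 0 < y) :
    d * (Real.log y - Real.log m) + d - y ≤ d * Real.log (d / m) := by
  rcases hd.eq_or_lt with rfl | hd
  · simp only [zero_mul]; linarith
  · have h1 : Real.log (y / d) ≤ y / d - 1 := Real.log_le_sub_one_of_pos (div_pos hy hd)
    rw [Real.log_div hy.ne' hd.ne'] at h1
    rw [Real.log_div hd.ne' hm.ne']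
    have h2 : d * (Real.log y - Real.log d) ≤ d * (y / d - 1) := mul_le_mul_of_nonneg_left h1 hd.le
    have h3 : d * (y / d - 1) = y - d := by field_simp
    linarith

lemma cert2_of {m l1 l2 c : ℝ} (hm : 0 < m) (h1 : m * Real.exp (l1 - 1) ≤ c)
    (h2 : m * Real.exp (l2 - 1) ≤ c) (h3 : m * (Real.exp l1 + Real.exp l2) ≤ Real.exp c) :
    Cert2 m l1 l2 (fun _ => -c) := by
  intro d a b hd0 hd1 ha0 ha1 hb0 hb1
  have hc : 0 ≤ c := le_trans (by positivity) h1
  set X := Real.log (d / m) - l1 with hX
  set Y := Real.log ((1 - d) / m) - l2 with hY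
  have hdX : -c ≤ d * X := by
    have := tang hd0 hm (y := m * Real.exp (l1 - 1)) (by positivity)
    rw [Real.log_mul hm.ne' (Real.exp_pos _).ne', Real.log_exp] at this
    have e : d * X = d * Real.log (d / m) - d * l1 := by rw [hX]; ring
    rw [e]
    nlinarith
  have hdY : -c ≤ (1 - d) * Y := by
    have := tang (by linarith : (0:ℝ) ≤ 1 - d) hm (y := m * Real.exp (l2 - 1)) (by positivity)
    rw [Real.log_mul hm.ne' (Real.exp_pos _).ne', Real.log_exp] at this
    have e : (1 - d) * Y = (1 - d) * Real.log ((1 - d) / m) - (1 - d) * l2 := by rw [hY]; ring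
    rw [e]
    nlinarith
  have hdXY : -c ≤ d * X + (1 - d) * Y := by
    set S := Real.exp l1 + Real.exp l2 with hS
    have hS0 : 0 < S := by positivity
    have t1 := tang hd0 hm (y := Real.exp l1 / S) (by positivity)
    have t2 := tang (by linarith : (0:ℝ) ≤ 1 - d) hm (y := Real.exp l2 / S) (by positivity)
    rw [Real.log_div (Real.exp_pos _).ne' hS0.ne', Real.log_exp] at t1 t2
    have hlog : Real.log m + Real.log S ≤ c := by
      rw [← Real.log_mul hm.ne' hS0.ne', Real.log_le_iff_le_exp (by positivity)]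
      exact h3
    have hy : Real.exp l1 / S + Real.exp l2 / S = 1 := by
      rw [← add_div, div_self hS0.ne']
    have e : d * X + (1 - d) * Y = d * Real.log (d / m) - d * l1 +
        ((1 - d) * Real.log ((1 - d) / m) - (1 - d) * l2) := by rw [hX, hY]; ring
    rw [e]
    nlinarith
  show l1 * a + l2 * b + -c ≤ a * Real.log (d / m) + b * Real.log ((1 - d) / m)
  have key : -c ≤ a * X + b * Y := by
    rcases le_total 0 X with x0 | x0
    · rcases le_total 0 Y with y0 | y0
      · have := mul_nonneg ha0 x0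
        have := mul_nonneg hb0 y0
        linarith
      · have := mul_nonneg ha0 x0
        have : (1 - d) * Y ≤ b * Y := mul_le_mul_of_nonpos_right hb1 y0
        linarith
    · have hx : d * X ≤ a * X := mul_le_mul_of_nonpos_right ha1 x0
      rcases le_total 0 Y with y0 | y0
      · have := mul_nonneg hb0 y0
        linarith
      · have : (1 - d) * Y ≤ b * Y := mul_le_mul_of_nonpos_right hb1 y0
        linarith
  have e : a * X + b * Y = a * Real.log (d / m) + b * Real.log ((1 - d) / m) - (l1 * a + l2 * b) := by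
    rw [hX, hY]; ring
  linarith

lemma exp_frac_le {p q : ℕ} (hq : q ≠ 0) {x : ℝ} (hx : 0 ≤ x)
    (h : (2.7182818286 : ℝ) ^ p ≤ x ^ q) : Real.exp ((p : ℝ) / q) ≤ x := by
  have h1 : Real.exp ((p : ℝ) / q) ^ q = Real.exp 1 ^ p := by
    rw [← Real.exp_nat_mul, ← Real.exp_nat_mul]
    congr 1
    have : (q : ℝ) ≠ 0 := by exact_mod_cast hq
    field_simp
  have h2 : Real.exp 1 ^ p ≤ (2.7182818286 : ℝ) ^ p :=
    pow_le_pow_left₀ (Real.exp_pos _).le Real.exp_one_lt_d9.le p
  exact le_of_pow_le_pow_left₀ hq hx (by rw [h1]; exact h2.trans h)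

lemma le_exp_frac {p q : ℕ} (hq : q ≠ 0) {x : ℝ}
    (h : x ^ q ≤ (2.7182818283 : ℝ) ^ p) : x ≤ Real.exp ((p : ℝ) / q) := by
  have h1 : Real.exp ((p : ℝ) / q) ^ q = Real.exp 1 ^ p := by
    rw [← Real.exp_nat_mul, ← Real.exp_nat_mul]
    congr 1
    have : (q : ℝ) ≠ 0 := by exact_mod_cast hq
    field_simp
  have h2 : (2.7182818283 : ℝ) ^ p ≤ Real.exp 1 ^ p :=
    pow_le_pow_left₀ (by norm_num) Real.exp_one_gt_d9.le p
  exact le_of_pow_le_pow_left₀ hq (Real.exp_pos _).le (by rw [h1]; exact h.trans h2)

lemma num_a {m : ℝ} (hm : 0 < m) (hm4 : m ≤ 1 / 4) :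
    m * (Real.exp 1 + Real.exp (4 / 5)) ≤ Real.exp m := by
  have h1 : Real.exp (4 / 5) ≤ 2.23 := by
    have := exp_frac_le (p := 4) (q := 5) (by norm_num) (x := 2.23) (by norm_num) (by norm_num)
    push_cast at this; exact this
  have h2 : (1.28 : ℝ) ≤ Real.exp (1 / 4) := by
    have := le_exp_frac (p := 1) (q := 4) (by norm_num) (x := 1.28) (by norm_num)
    push_cast at this; exact this
  have h3 := Real.exp_one_lt_d9
  have h4 : Real.exp (1 / 4) * (3 / 4 + m) ≤ Real.exp m := by
    have : Real.exp m = Real.exp (1 / 4) * Real.exp (m - 1 / 4) := by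
      rw [← Real.exp_add]; congr 1; ring
    rw [this]
    have h5 := Real.add_one_le_exp (m - 1 / 4)
    exact mul_le_mul_of_nonneg_left (by linarith) (Real.exp_pos _).le
  have h5 : 1.28 * (3 / 4 + m) ≤ Real.exp (1 / 4) * (3 / 4 + m) :=
    mul_le_mul_of_nonneg_right h2 (by linarith)
  have h6 : m * (Real.exp 1 + Real.exp (4 / 5)) ≤ m * 4.95 :=
    mul_le_mul_of_nonneg_left (by linarith) hm.le
  nlinarith

lemma log_ge {d m : ℝ} (hd : 0 < d) (hm : 0 < m) (hd1 : d ≤ 1) (hm1 : m ≤ 1) :
    (d - m) + (d - m) ^ 2 / 2 ≤ d * Real.log (d / m) := by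
  rcases le_total m d with h | h
  · -- d ≥ m : monotonicity
    have hmono : MonotoneOn (fun x => x * Real.log (x / m) - (x - m) - (x - m) ^ 2 / 2)
        (Set.Icc m 1) := by
      refine monotoneOn_of_hasDerivWithinAt_nonneg (convex_Icc _ _)
        (f' := fun x => Real.log (x / m) - (x - m)) ?_ ?_ ?_
      · refine ContinuousOn.sub (ContinuousOn.sub (ContinuousOn.mul continuousOn_id
          (ContinuousOn.log (by fun_prop) ?_)) (by fun_prop)) (by fun_prop)
        intro x hx
        have : 0 < x := lt_of_lt_of_le hm hx.1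
        positivity
      · intro x hx
        rw [interior_Icc] at hx
        have hx0 : 0 < x := hm.trans hx.1
        have h1 : HasDerivAt (fun x => Real.log (x / m)) (1 / x) x := by
          have := ((hasDerivAt_id x).div_const m).log (by simp; constructor <;> positivity)
          refine this.congr_deriv ?_
          simp only [id]
          field_simp
        have h2 := ((hasDerivAt_id x).mul h1).sub ((hasDerivAt_id x).sub_const m)
        have h3 := h2.sub ((((hasDerivAt_id x).sub_const m).pow 2).div_const 2)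
        refine HasDerivAt.hasDerivWithinAt (h3.congr_deriv ?_)
        simp only [id]
        field_simp
        ring
      · intro x hx
        rw [interior_Icc] at hx
        have hx0 : 0 < x := hm.trans hx.1
        have h1 : Real.log (m / x) ≤ m / x - 1 := Real.log_le_sub_one_of_pos (by positivity)
        have h2 : Real.log (x / m) = -Real.log (m / x) := by
          rw [← Real.log_inv, inv_div]
        have h3 : 1 - m / x = (x - m) / x := by field_simp
        have h4 : x - m ≤ (x - m) / x := by
          rw [le_div_iff₀ hx0]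
          nlinarith [hx.1, hx.2]
        show 0 ≤ Real.log (x / m) - (x - m)
        rw [h2]; linarith
    have := hmono ⟨le_refl m, hm1⟩ ⟨h, hd1⟩ h
    simp only [div_self hm.ne', Real.log_one, mul_zero, sub_self] at this
    linarith
  · -- d ≤ m : sinh
    have h1 : Real.log (m / d) ≤ Real.sinh (Real.log (m / d)) := by
      rw [Real.self_le_sinh_iff]
      apply Real.log_nonneg
      rw [le_div_iff₀ hd]; linarith
    rw [Real.sinh_log (by positivity), inv_div] at h1
    have h2 : Real.log (d / m) = -Real.log (m / d) := by rw [← Real.log_inv, inv_div]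
    rw [h2]
    have h3 : d * Real.log (m / d) ≤ d * ((m / d - d / m) / 2) := mul_le_mul_of_nonneg_left h1 hd.le
    have h4 : d * ((m / d - d / m) / 2) = (m - d) - (m - d) ^ 2 / (2 * m) := by
      field_simp
      ring
    have h5 : (m - d) ^ 2 / 2 ≤ (m - d) ^ 2 / (2 * m) := by
      apply div_le_div_of_nonneg_left (by positivity) (by positivity) (by linarith)
    nlinarith

theorem num : Pool.Agent.W297.LP.SNum := by
  refine ⟨?_, ?_, ?_, ?_, ?_⟩
  · intro m hm hm4
    have h1 : m * Real.exp (1 - 1) ≤ m := by simp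
    have h2 : m * Real.exp (4 / 5 - 1) ≤ m := by
      have : Real.exp (4 / 5 - 1) ≤ 1 := Real.exp_le_one_iff.2 (by norm_num)
      nlinarith
    have h3 := num_a hm hm4
    exact ⟨cert2_of hm h1 h2 h3, cert2_of hm h2 h1 (by rw [add_comm]; exact h3)⟩
  · have h1 : (1 / 3 : ℝ) * Real.exp (3 / 5 - 1) ≤ 2235 / 10000 := by
      have h := le_exp_frac (p := 2) (q := 5) (by norm_num) (x := 1.4915) (by norm_num)
      push_cast at h
      have e : Real.exp (3 / 5 - 1) = (Real.exp (2 / 5))⁻¹ := by
        rw [← Real.exp_neg]; congr 1; norm_num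
      rw [e]
      have : (Real.exp (2 / 5))⁻¹ ≤ (1.4915)⁻¹ := inv_anti₀ (by norm_num) h
      refine (mul_le_mul_of_nonneg_left this (by norm_num)).trans (by norm_num)
    refine cert2_of (by norm_num) h1 h1 ?_
    have h2 := exp_frac_le (p := 3) (q := 5) (by norm_num) (x := 1.83) (by norm_num) (by norm_num)
    push_cast at h2
    have h3 := Real.add_one_le_exp (2235 / 10000 : ℝ)
    linarith
  · refine cert2_of (by norm_num) (by simp) ?_ ?_
    · have : Real.exp (3 / 8 - 1) ≤ 1 := Real.exp_le_one_iff.2 (by norm_num)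
      linarith
    · have h2 := exp_frac_le (p := 3) (q := 8) (by norm_num) (x := 1.46) (by norm_num) (by norm_num)
      have h3 := le_exp_frac (p := 1) (q := 3) (by norm_num) (x := 1.3945) (by norm_num)
      push_cast at h2 h3
      have h4 := Real.exp_one_lt_d9
      linarith
  · intro m hm hm1 d a hd0 hd1 ha0 had
    show 1 * a + -m ≤ a * Real.log (d / m)
    rcases ha0.eq_or_lt with rfl | ha
    · simp; exact hm.le
    · have h1 := tang ha0 hm (y := m) hm
      have h2 : Real.log (a / m) ≤ Real.log (d / m) :=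
        Real.log_le_log (by positivity) (by gcongr)
      have h3 : a * Real.log (a / m) ≤ a * Real.log (d / m) := mul_le_mul_of_nonneg_left h2 ha.le
      linarith
  · intro m hm hm1 d a hd0 hd1 ha0 had
    show Real.log (1 / m) * a + ((d - m) + (d - m) ^ 2 / 2 - Real.log (1 / m) * d) ≤
      a * Real.log (d / m)
    have hL : Real.log (1 / m) = -Real.log m := by rw [one_div, Real.log_inv]
    rcases hd0.eq_or_lt with rfl | hd
    · have : a = 0 := le_antisymm had ha0
      subst this
      simp only [mul_zero, zero_mul, zero_sub]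
      nlinarith
    · have h1 := log_ge hd hm hd1 hm1
      have h2 : Real.log d ≤ 0 := Real.log_nonpos hd.le hd1
      rw [Real.log_div hd.ne' hm.ne'] at h1 ⊢
      rw [hL]
      nlinarith [mul_nonneg (sub_nonneg.2 had) (neg_nonneg.2 h2)]

end Pool.Agent.W371.LL
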