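import Pool.Agent.W371.LL.Com

/-! MP_6505eb_co: SYM. -/

set_option autoImplicit false

open Finset

namespace Pool.Agent.W371.LL

open Pool.Agent.W297.LP

theorem sym : SSym := by
  refine ⟨?_, ?_⟩
  · intro k e V _ _ W D1 D2 hW h
    refine ⟨h.c2, ?_, ?_, h.core2, ?_, ?_, h.one2, ?_⟩
    · rw [co_co]; exact h.c1
    · rw [Finset.inter_comm]; exact h.cap
    · rw [co_co]; exact h.core1
    · intro l1 l2 Ph hc
      have hc' : Cert2 (mu k) l2 l1 (fun d => Ph (1 - d)) := by
        intro d a b h0 h1 h2 h3 h4 h5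
        have := hc (1 - d) b a (by linarith) (by linarith) h4 h5 h2 (by linarith)
        rw [sub_sub_cancel] at this
        linarith
      have h2 := h.two l2 l1 _ hc'
      rw [co_co]
      have h3 : ∑ x, Ph (dg (co W) x) = ∑ x, Ph (1 - dg W x) := by
        refine Finset.sum_congr rfl fun x _ => ?_
        rw [dg_co]
      rw [h3]
      linarith
    · rw [co_co]; exact h.one1
  · intro k e e' V _ _ W D1 D2 hk he h
    have hmu : 0 ≤ mu k := by
      unfold mu
      have : (4 : ℝ) ≤ k := by exact_mod_cast hk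
      exact div_nonneg zero_le_one (by linarith)
    have hn : (0 : ℝ) ≤ (Fintype.card V : ℝ) := Nat.cast_nonneg _
    have hle : (1 + e) * mu k * (Fintype.card V : ℝ) ≤ (1 + e') * mu k * (Fintype.card V : ℝ) := by
      gcongr
    refine ⟨h.c1.trans (by gcongr), h.c2.trans (by gcongr), h.cap.trans he, ?_, ?_, ?_, ?_, ?_⟩
    · exact fun S hS => h.core1 S fun x hx => hle.trans (hS x hx)
    · exact fun S hS => h.core2 S fun x hx => hle.trans (hS x hx)
    · exact fun l1 l2 Ph hc => (h.two l1 l2 Ph hc).trans (by gcongr)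
    · exact fun l Ph hc => (h.one1 l Ph hc).trans (by gcongr)
    · exact fun l Ph hc => (h.one2 l Ph hc).trans (by gcongr)

end Pool.Agent.W371.LL
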