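import Pool.Agent.W371.LL.Com

/-! MP_6505eb_co: WALK. -/

set_option autoImplicit false

open Finset

namespace Pool.Agent.W371.LL

open Pool.Agent.W297.LP

theorem walk : SWalk := by
  intro V _ W hW m hm T
  induction T with
  | pt =>
    intro x hx
    simp [td, gt, Tr.sz]
  | br A B ihA ihB =>
    intro x hx
    obtain ⟨hA0, hA⟩ := ihA x hx
    set n : ℝ := (Fintype.card V : ℝ) with hn
    have hn0 : 0 < n := by
      haveI : Nonempty V := ⟨x⟩
      have : 0 < Fintype.card V := Fintype.card_pos
      exact Nat.cast_pos.2 this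
    set S : ℝ := ∑ y, W x y with hS
    have hS0 : 0 < S := by
      have h1 : 0 < S / n := hx
      rcases div_pos_iff.1 h1 with h | h
      · exact h.1
      · linarith [h.2]
    have hnb : ∀ y, W x y ≠ 0 → 0 < dg W y := by
      intro y hy
      have h1 : W x y = 1 := (hW.zo x y).resolve_left hy
      unfold dg
      refine div_pos ?_ hn0
      refine Finset.sum_pos' (fun z _ => ker_nonneg hW y z) ⟨x, mem_univ _, ?_⟩
      rw [hW.symm, h1]; norm_num
    obtain ⟨y0, -, hy0⟩ : ∃ y ∈ univ, W x y ≠ 0 := by
      apply Finset.exists_ne_zero_of_sum_ne_zero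
      exact hS0.ne'
    set R : ℝ := ∑ y, W x y * td W B y with hR
    have hR0 : 0 < R := by
      refine Finset.sum_pos' (fun z _ => mul_nonneg (ker_nonneg hW x z) (td_nonneg hW B z))
        ⟨y0, mem_univ _, ?_⟩
      exact mul_pos (lt_of_le_of_ne (ker_nonneg hW x y0) (Ne.symm hy0)) (ihB y0 (hnb y0 hy0)).1
    set c : ℝ := R / S with hc
    have hc0 : 0 < c := div_pos hR0 hS0
    have htd : td W (.br A B) x = td W A x * (R / n) := rfl
    have hRn : R / n = dg W x * c := by
      show R / n = S / n * (R / S)
      field_simp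
    refine ⟨?_, ?_⟩
    · rw [htd]; exact mul_pos hA0 (div_pos hR0 hn0)
    · have hterm : ∀ y, W x y * gt W m B y ≤
          W x y * (Real.log c - 1 - (B.sz : ℝ) * Real.log m) + W x y * td W B y / c := by
        intro y
        rcases eq_or_ne (W x y) 0 with h | h
        · rw [h]; simp
        · obtain ⟨h1, h2⟩ := ihB y (hnb y h)
          have h3 : Real.log (td W B y / c) ≤ td W B y / c - 1 :=
            Real.log_le_sub_one_of_pos (div_pos h1 hc0)
          rw [Real.log_div h1.ne' hc0.ne'] at h3
          have h4 : gt W m B y ≤ (Real.log c - 1 - (B.sz : ℝ) * Real.log m) + td W B y / c := by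
            linarith
          calc W x y * gt W m B y ≤ W x y * ((Real.log c - 1 - (B.sz : ℝ) * Real.log m) +
                td W B y / c) := mul_le_mul_of_nonneg_left h4 (ker_nonneg hW x y)
            _ = _ := by ring
      have hsum : ∑ y, W x y * gt W m B y ≤ S * (Real.log c - (B.sz : ℝ) * Real.log m) := by
        calc ∑ y, W x y * gt W m B y ≤ ∑ y, (W x y * (Real.log c - 1 - (B.sz : ℝ) * Real.log m) +
              W x y * td W B y / c) := Finset.sum_le_sum fun y _ => hterm y
          _ = S * (Real.log c - 1 - (B.sz : ℝ) * Real.log m) + R / c := by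
              rw [Finset.sum_add_distrib, ← Finset.sum_mul, ← Finset.sum_div]
          _ = _ := by
              have : R / c = S := by rw [hc]; field_simp
              rw [this]; ring
      have hpp : pp W (gt W m B) x ≤ Real.log c - (B.sz : ℝ) * Real.log m := by
        show (∑ y, W x y * gt W m B y) / S ≤ _
        rw [div_le_iff₀ hS0]
        linarith
      have hlf : lf W m x = Real.log (dg W x) - Real.log m := by
        unfold lf
        rw [Real.log_div hx.ne' hm.ne']
      have hg : gt W m (.br A B) x = gt W m A x + lf W m x + pp W (gt W m B) x := rfl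
      have hsz : (((Tr.br A B).sz : ℕ) : ℝ) = (A.sz : ℝ) + (B.sz : ℝ) + 1 := by
        show ((A.sz + B.sz + 1 : ℕ) : ℝ) = _
        push_cast; ring
      rw [hg, htd, hRn, Real.log_mul hA0.ne' (mul_pos hx hc0).ne', Real.log_mul hx.ne' hc0.ne', hsz,
        hlf]
      linarith

end Pool.Agent.W371.LL
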