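import Pool.Agent.W297.LP.Stm

/-! MP_6505eb_co: common lemmas. -/

set_option autoImplicit false

open Finset

namespace Pool.Agent.W371.LL

open Pool.Agent.W297.LP

variable {V : Type} [Fintype V]

lemma ker_nonneg {W : V → V → ℝ} (h : Ker W) (x y : V) : 0 ≤ W x y := by
  rcases h.zo x y with e | e <;> rw [e] <;> norm_num

lemma ker_le_one {W : V → V → ℝ} (h : Ker W) (x y : V) : W x y ≤ 1 := by
  rcases h.zo x y with e | e <;> rw [e] <;> norm_num

omit [Fintype V] in
lemma co_co (W : V → V → ℝ) : co (co W) = W := by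
  funext x y; unfold co; ring

omit [Fintype V] in
lemma co_ker {W : V → V → ℝ} (h : Ker W) : Ker (co W) := by
  refine ⟨fun x y => ?_, fun x y => ?_⟩
  · unfold co; rw [h.symm]
  · unfold co; rcases h.zo x y with e | e <;> rw [e] <;> norm_num

lemma dg_co {W : V → V → ℝ} (x : V) : dg (co W) x = 1 - dg W x := by
  have hn : (Fintype.card V : ℝ) ≠ 0 := by
    haveI : Nonempty V := ⟨x⟩
    exact_mod_cast Fintype.card_ne_zero
  unfold dg co
  rw [Finset.sum_sub_distrib]
  simp only [Finset.sum_const, Finset.card_univ, nsmul_eq_mul, mul_one]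
  field_simp

lemma dg_nonneg {W : V → V → ℝ} (h : Ker W) (x : V) : 0 ≤ dg W x := by
  unfold dg
  exact div_nonneg (Finset.sum_nonneg fun y _ => ker_nonneg h x y) (Nat.cast_nonneg _)

lemma dg_le_one {W : V → V → ℝ} (h : Ker W) (x : V) : dg W x ≤ 1 := by
  have := dg_nonneg (co_ker h) x
  rw [dg_co] at this
  linarith

lemma td_nonneg {W : V → V → ℝ} (h : Ker W) : ∀ (T : Tr) (x : V), 0 ≤ td W T x
  | .pt, _ => by unfold td; norm_num
  | .br A B, x => by
    unfold td
    refine mul_nonneg (td_nonneg h A x) (div_nonneg (Finset.sum_nonneg fun y _ => ?_)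
      (Nat.cast_nonneg _))
    exact mul_nonneg (ker_nonneg h x y) (td_nonneg h B y)

end Pool.Agent.W371.LL
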